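import Pool.Agent.Q2.SP.Defs
import Pool.Agent.Q2.SP.Idem
import Pool.Agent.Q2.SP.CondN2

/-!
# MP_70eb0a_al, Q1 (negated form)

For the dicyclic group `G` of order `12` and `p = 2`, condition (N) holds, but `ℤ_(2) G` is not
semiperfect.

Condition (N): the two simple `𝔽_2 G`-modules (the trivial one and a two-dimensional one) are
reductions of simple `ℚ G`-modules of dimensions `1` and `2`; so the class of every finitely
generated module is a non-negative combination of classes of reductions.

Not semiperfect: `ℤ_(2) G` maps onto the order `O` spanned by `1, i, j, ij` (`i^2 = i - 1`,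
`j^2 = -1`) in the quaternion algebra `(-1, -3)` over `ℚ`, which is a division algebra, so `O` has
no idempotents except `0` and `1`; but `O / 2 O` is a matrix algebra over `𝔽_2`, and one of its
idempotents of rank one is the image of an element of `ℤ_(2) G` whose class modulo the Jacobson
radical is idempotent.
-/

set_option autoImplicit false

namespace Pool.Agent.Results.MP_70eb0a_al.DicyclicTwelve

open Q2.SP

/-- **Q1, negated form.**  There are a prime `p` and a finite group `G` (namely `p = 2` and the
dicyclic group of order `12`) such that condition (N) holds but `ℤ_(p) G` is not semiperfect. -/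
theorem result : ∃ (p : ℕ) (_ : Fact p.Prime) (G : Type) (_ : Group G) (_ : Finite G),
    ConditionN p G ∧ ¬ IsSemiperfect (MonoidAlgebra (ZLoc p) G) :=
  ⟨2, inferInstance, QuaternionGroup 3, inferInstance, inferInstance, condN,
    fun h => not_lift h.2⟩

end Pool.Agent.Results.MP_70eb0a_al.DicyclicTwelve
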